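import Pool.Agent.Lib_helper11.GK.Defs

/-!
FLAG block: in a connected bialgebra every finite-dimensional subspace lies in a subcoalgebra with a
triangular basis.
-/

set_option autoImplicit false

universe u v

namespace Pool.Agent.GK

open TensorProduct

section FLAGops
variable (k : Type u) [Field k] {H : Type v} [Ring H] [Bialgebra k H]

/-- `f ⇀ x = (id ⊗ f) Δ x`. -/
noncomputable def FLAG_L : Module.Dual k H →ₗ[k] H →ₗ[k] H :=
  LinearMap.mk₂ k (fun f x => TensorProduct.rid k H (LinearMap.lTensor H f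
    (Coalgebra.comul (R := k) x)))
    (by intro f g x; simp [LinearMap.lTensor_add])
    (by intro c f x; simp [LinearMap.lTensor_smul])
    (by intro f x y; simp)
    (by intro c f x; simp)

/-- `x ↼ f = (f ⊗ id) Δ x`. -/
noncomputable def FLAG_R : Module.Dual k H →ₗ[k] H →ₗ[k] H :=
  LinearMap.mk₂ k (fun f x => TensorProduct.lid k H (LinearMap.rTensor H f
    (Coalgebra.comul (R := k) x)))
    (by intro f g x; simp [LinearMap.rTensor_add])
    (by intro c f x; simp [LinearMap.rTensor_smul])
    (by intro f x y; simp)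
    (by intro c f x; simp)

theorem FLAG_L_apply (f : Module.Dual k H) (x : H) : FLAG_L k f x =
    TensorProduct.rid k H (LinearMap.lTensor H f (Coalgebra.comul (R := k) x)) := rfl

theorem FLAG_R_apply (f : Module.Dual k H) (x : H) : FLAG_R k f x =
    TensorProduct.lid k H (LinearMap.rTensor H f (Coalgebra.comul (R := k) x)) := rfl

/-- the convolution of two functionals -/
noncomputable def FLAG_conv (f g : Module.Dual k H) : Module.Dual k H :=
  LinearMap.mul' k k ∘ₗ TensorProduct.map f g ∘ₗ Coalgebra.comul (R := k)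

theorem FLAG_conv_apply (f g : Module.Dual k H) (x : H) : FLAG_conv k f g x =
    LinearMap.mul' k k (TensorProduct.map f g (Coalgebra.comul (R := k) x)) := rfl

theorem FLAG_LR (f g : Module.Dual k H) (x : H) :
    FLAG_L k f (FLAG_R k g x) = FLAG_R k g (FLAG_L k f x) := by
  set Φ : H ⊗[k] (H ⊗[k] H) →ₗ[k] H := (TensorProduct.lid k H).toLinearMap ∘ₗ
    TensorProduct.map g ((TensorProduct.rid k H).toLinearMap ∘ₗ LinearMap.lTensor H f) with hΦ
  have h1 : ∀ t : H ⊗[k] H, FLAG_L k f (TensorProduct.lid k H (LinearMap.rTensor H g t)) =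
      Φ (LinearMap.lTensor H (Coalgebra.comul (R := k)) t) := by
    intro t
    induction t with
    | zero => simp
    | tmul a b => simp [hΦ, FLAG_L_apply]
    | add s t hs ht => simp only [map_add, hs, ht]
  have h3 : ∀ (s : H ⊗[k] H) (b : H), Φ (TensorProduct.assoc k H H H (s ⊗ₜ b)) =
      f b • TensorProduct.lid k H (LinearMap.rTensor H g s) := by
    intro s b
    induction s with
    | zero => simp
    | tmul p q => simp [hΦ, smul_smul]
    | add s t hs ht => simp only [TensorProduct.add_tmul, map_add, hs, ht, smul_add]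
  have h2 : ∀ t : H ⊗[k] H, FLAG_R k g (TensorProduct.rid k H (LinearMap.lTensor H f t)) =
      Φ (TensorProduct.assoc k H H H (LinearMap.rTensor H (Coalgebra.comul (R := k)) t)) := by
    intro t
    induction t with
    | zero => simp
    | tmul a b => rw [LinearMap.rTensor_tmul, h3]; simp [FLAG_R_apply]
    | add s t hs ht => simp only [map_add, hs, ht]
  rw [FLAG_R_apply, FLAG_L_apply k f x, h1, h2, Coalgebra.coassoc_apply]

theorem FLAG_LL (f g : Module.Dual k H) (x : H) :
    FLAG_L k f (FLAG_L k g x) = FLAG_L k (FLAG_conv k f g) x := by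
  set Φ : H ⊗[k] (H ⊗[k] H) →ₗ[k] H := (TensorProduct.rid k H).toLinearMap ∘ₗ
    LinearMap.lTensor H (LinearMap.mul' k k ∘ₗ TensorProduct.map f g) with hΦ
  have h1 : ∀ t : H ⊗[k] H,
      TensorProduct.rid k H (LinearMap.lTensor H (FLAG_conv k f g) t) =
      Φ (LinearMap.lTensor H (Coalgebra.comul (R := k)) t) := by
    intro t
    induction t with
    | zero => simp
    | tmul a b => simp [hΦ, FLAG_conv_apply]
    | add s t hs ht => simp only [map_add, hs, ht]
  have h3 : ∀ (s : H ⊗[k] H) (b : H), Φ (TensorProduct.assoc k H H H (s ⊗ₜ b)) =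
      g b • TensorProduct.rid k H (LinearMap.lTensor H f s) := by
    intro s b
    induction s with
    | zero => simp
    | tmul p q => simp [hΦ, smul_smul, mul_comm]
    | add s t hs ht => simp only [TensorProduct.add_tmul, map_add, hs, ht, smul_add]
  have h2 : ∀ t : H ⊗[k] H, FLAG_L k f (TensorProduct.rid k H (LinearMap.lTensor H g t)) =
      Φ (TensorProduct.assoc k H H H (LinearMap.rTensor H (Coalgebra.comul (R := k)) t)) := by
    intro t
    induction t with
    | zero => simp
    | tmul a b => rw [LinearMap.rTensor_tmul, h3]; simp [FLAG_L_apply]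
    | add s t hs ht => simp only [map_add, hs, ht]
  rw [FLAG_L_apply k g x, h2, Coalgebra.coassoc_apply, ← h1, FLAG_L_apply]

theorem FLAG_RR (f g : Module.Dual k H) (x : H) :
    FLAG_R k f (FLAG_R k g x) = FLAG_R k (FLAG_conv k g f) x := by
  set Φ : H ⊗[k] (H ⊗[k] H) →ₗ[k] H := (TensorProduct.lid k H).toLinearMap ∘ₗ
    TensorProduct.map g ((TensorProduct.lid k H).toLinearMap ∘ₗ LinearMap.rTensor H f) with hΦ
  have h1 : ∀ t : H ⊗[k] H, FLAG_R k f (TensorProduct.lid k H (LinearMap.rTensor H g t)) =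
      Φ (LinearMap.lTensor H (Coalgebra.comul (R := k)) t) := by
    intro t
    induction t with
    | zero => simp
    | tmul a b => simp [hΦ, FLAG_R_apply]
    | add s t hs ht => simp only [map_add, hs, ht]
  have h3 : ∀ (s : H ⊗[k] H) (b : H), Φ (TensorProduct.assoc k H H H (s ⊗ₜ b)) =
      LinearMap.mul' k k (TensorProduct.map g f s) • b := by
    intro s b
    induction s with
    | zero => simp
    | tmul p q => simp [hΦ, smul_smul, mul_comm]
    | add s t hs ht => simp only [TensorProduct.add_tmul, map_add, hs, ht, add_smul]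
  have h2 : ∀ t : H ⊗[k] H,
      TensorProduct.lid k H (LinearMap.rTensor H (FLAG_conv k g f) t) =
      Φ (TensorProduct.assoc k H H H (LinearMap.rTensor H (Coalgebra.comul (R := k)) t)) := by
    intro t
    induction t with
    | zero => simp
    | tmul a b => rw [LinearMap.rTensor_tmul, LinearMap.rTensor_tmul, h3]; simp [FLAG_conv_apply]
    | add s t hs ht => simp only [map_add, hs, ht]
  rw [FLAG_R_apply k g x, h1, ← Coalgebra.coassoc_apply, ← h2, FLAG_R_apply]

theorem FLAG_Lcounit (x : H) : FLAG_L k (Coalgebra.counit (R := k)) x = x := by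
  rw [FLAG_L_apply, Coalgebra.lTensor_counit_comul]; simp

theorem FLAG_Rcounit (x : H) : FLAG_R k (Coalgebra.counit (R := k)) x = x := by
  rw [FLAG_R_apply, Coalgebra.rTensor_counit_comul]; simp

theorem FLAG_counitL (f : Module.Dual k H) (x : H) :
    Coalgebra.counit (R := k) (FLAG_L k f x) = f x := by
  have h1 : ∀ t : H ⊗[k] H,
      Coalgebra.counit (R := k) (TensorProduct.rid k H (LinearMap.lTensor H f t)) =
      f (TensorProduct.lid k H (LinearMap.rTensor H (Coalgebra.counit (R := k)) t)) := by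
    intro t
    induction t with
    | zero => simp
    | tmul a b => simp [mul_comm]
    | add s t hs ht => simp only [map_add, hs, ht]
  rw [FLAG_L_apply, h1, Coalgebra.rTensor_counit_comul]; simp

theorem FLAG_counitR (f : Module.Dual k H) (x : H) :
    Coalgebra.counit (R := k) (FLAG_R k f x) = f x := by
  have h1 : ∀ t : H ⊗[k] H,
      Coalgebra.counit (R := k) (TensorProduct.lid k H (LinearMap.rTensor H f t)) =
      f (TensorProduct.rid k H (LinearMap.lTensor H (Coalgebra.counit (R := k)) t)) := by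
    intro t
    induction t with
    | zero => simp
    | tmul a b => simp [mul_comm]
    | add s t hs ht => simp only [map_add, hs, ht]
  rw [FLAG_R_apply, h1, Coalgebra.lTensor_counit_comul]; simp

theorem FLAG_L_one (f : Module.Dual k H) : FLAG_L k f (1 : H) = f 1 • (1 : H) := by
  rw [FLAG_L_apply, Bialgebra.comul_one, Algebra.TensorProduct.one_def]; simp

theorem FLAG_R_one (f : Module.Dual k H) : FLAG_R k f (1 : H) = f 1 • (1 : H) := by
  rw [FLAG_R_apply, Bialgebra.comul_one, Algebra.TensorProduct.one_def]; simp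

theorem FLAG_finL (t : H ⊗[k] H) : ∃ W : Submodule k H, W.FG ∧ ∀ f : Module.Dual k H,
    TensorProduct.rid k H (LinearMap.lTensor H f t) ∈ W := by
  induction t with
  | zero => exact ⟨⊥, Submodule.fg_bot, fun f => by simp⟩
  | tmul a b =>
    exact ⟨Submodule.span k {a}, Submodule.fg_span_singleton a, fun f => by
      simpa using Submodule.smul_mem _ _ (Submodule.mem_span_singleton_self a)⟩
  | add s t hs ht =>
    obtain ⟨W, hW, h1⟩ := hs
    obtain ⟨W', hW', h2⟩ := ht
    exact ⟨W ⊔ W', hW.sup hW', fun f => by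
      simp only [map_add]
      exact Submodule.add_mem _ (Submodule.mem_sup_left (h1 f)) (Submodule.mem_sup_right (h2 f))⟩

theorem FLAG_finR (t : H ⊗[k] H) : ∃ W : Submodule k H, W.FG ∧ ∀ f : Module.Dual k H,
    TensorProduct.lid k H (LinearMap.rTensor H f t) ∈ W := by
  induction t with
  | zero => exact ⟨⊥, Submodule.fg_bot, fun f => by simp⟩
  | tmul a b =>
    exact ⟨Submodule.span k {b}, Submodule.fg_span_singleton b, fun f => by
      simpa using Submodule.smul_mem _ _ (Submodule.mem_span_singleton_self b)⟩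
  | add s t hs ht =>
    obtain ⟨W, hW, h1⟩ := hs
    obtain ⟨W', hW', h2⟩ := ht
    exact ⟨W ⊔ W', hW.sup hW', fun f => by
      simp only [map_add]
      exact Submodule.add_mem _ (Submodule.mem_sup_left (h1 f)) (Submodule.mem_sup_right (h2 f))⟩

theorem FLAG_sepL (t : H ⊗[k] H) (h : ∀ f : Module.Dual k H,
    TensorProduct.rid k H (LinearMap.lTensor H f t) = 0) : t = 0 := by
  let b := Module.Free.chooseBasis k H
  have h1 : ∀ (s : H ⊗[k] H) i, (TensorProduct.equivFinsuppOfBasisRight (M := H) b) s i =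
      TensorProduct.rid k H (LinearMap.lTensor H (b.coord i) s) := by
    intro s i
    induction s with
    | zero => simp
    | tmul p q => simp
    | add s t hs ht => simp only [map_add, Finsupp.add_apply, hs, ht]
  apply (TensorProduct.equivFinsuppOfBasisRight (M := H) b).injective
  ext i
  rw [h1, h, map_zero]; rfl

theorem FLAG_sepR (t : H ⊗[k] H) (h : ∀ f : Module.Dual k H,
    TensorProduct.lid k H (LinearMap.rTensor H f t) = 0) : t = 0 := by
  have h1 : ∀ (s : H ⊗[k] H) (f : Module.Dual k H),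
      TensorProduct.rid k H (LinearMap.lTensor H f (TensorProduct.comm k H H s)) =
      TensorProduct.lid k H (LinearMap.rTensor H f s) := by
    intro s f
    induction s with
    | zero => simp
    | tmul p q => simp
    | add s t hs ht => simp only [map_add, hs, ht]
  have h2 := FLAG_sepL k (TensorProduct.comm k H H t) (fun f => by rw [h1, h])
  exact (TensorProduct.comm k H H).injective (by rw [h2, map_zero])

theorem FLAG_TD (D : Submodule k H) (t : H ⊗[k] H)
    (hl : ∀ f : Module.Dual k H, TensorProduct.rid k H (LinearMap.lTensor H f t) ∈ D)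
    (hr : ∀ f : Module.Dual k H, TensorProduct.lid k H (LinearMap.rTensor H f t) ∈ D) :
    t ∈ tsp k D D := by
  obtain ⟨p, hp⟩ := D.subtype.exists_leftInverse_of_injective D.ker_subtype
  set ρ : H →ₗ[k] H := D.subtype ∘ₗ p with hρ
  have hρD : ∀ x ∈ D, ρ x = x := by
    intro x hx
    have := LinearMap.congr_fun hp ⟨x, hx⟩
    simp only [LinearMap.comp_apply, Submodule.subtype_apply, LinearMap.id_apply] at this
    simp [hρ, this]
  have hρm : ∀ x, ρ x ∈ D := fun x => by simp [hρ]
  have h1 : LinearMap.rTensor H ρ t = t := by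
    rw [← sub_eq_zero]
    apply FLAG_sepL k
    intro f
    have e : ∀ s : H ⊗[k] H, TensorProduct.rid k H (LinearMap.lTensor H f (LinearMap.rTensor H ρ s))
        = ρ (TensorProduct.rid k H (LinearMap.lTensor H f s)) := by
      intro s
      induction s with
      | zero => simp
      | tmul p q => simp
      | add s t hs ht => simp only [map_add, hs, ht]
    rw [map_sub, map_sub, e, hρD _ (hl f), sub_self]
  have h2 : LinearMap.lTensor H ρ t = t := by
    rw [← sub_eq_zero]
    apply FLAG_sepR k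
    intro f
    have e : ∀ s : H ⊗[k] H, TensorProduct.lid k H (LinearMap.rTensor H f (LinearMap.lTensor H ρ s))
        = ρ (TensorProduct.lid k H (LinearMap.rTensor H f s)) := by
      intro s
      induction s with
      | zero => simp
      | tmul p q => simp
      | add s t hs ht => simp only [map_add, hs, ht]
    rw [map_sub, map_sub, e, hρD _ (hr f), sub_self]
  have h3 : ∀ s : H ⊗[k] H, LinearMap.rTensor H ρ (LinearMap.lTensor H ρ s) ∈ tsp k D D := by
    intro s
    induction s with
    | zero => simp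
    | tmul p q =>
      simp only [LinearMap.lTensor_tmul, LinearMap.rTensor_tmul]
      exact Submodule.apply_mem_map₂ _ (hρm p) (hρm q)
    | add s t hs ht =>
      simp only [map_add]
      exact Submodule.add_mem _ hs ht
  have := h3 t
  rwa [h2, h1] at this

theorem FLAG_sub_iff (D : Submodule k H) : IsSubcoalgebra k D ↔
    (∀ f, ∀ x ∈ D, FLAG_L k f x ∈ D) ∧ (∀ f, ∀ x ∈ D, FLAG_R k f x ∈ D) := by
  constructor
  · intro h
    refine ⟨fun f x hx => ?_, fun f x hx => ?_⟩
    · rw [FLAG_L_apply]
      have : ∀ t ∈ tsp k D D, TensorProduct.rid k H (LinearMap.lTensor H f t) ∈ D := by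
        intro t ht
        have : tsp k D D ≤ D.comap ((TensorProduct.rid k H).toLinearMap ∘ₗ
            LinearMap.lTensor H f) := by
          rw [tsp, Submodule.map₂_le]
          intro a ha b hb
          simpa using D.smul_mem _ ha
        exact this ht
      exact this _ (h x hx)
    · rw [FLAG_R_apply]
      have : ∀ t ∈ tsp k D D, TensorProduct.lid k H (LinearMap.rTensor H f t) ∈ D := by
        intro t ht
        have : tsp k D D ≤ D.comap ((TensorProduct.lid k H).toLinearMap ∘ₗ
            LinearMap.rTensor H f) := by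
          rw [tsp, Submodule.map₂_le]
          intro a ha b hb
          simpa using D.smul_mem _ hb
        exact this ht
      exact this _ (h x hx)
  · rintro ⟨h1, h2⟩ x hx
    exact FLAG_TD k D _ (fun f => h1 f x hx) (fun f => h2 f x hx)

end FLAGops

section FLAGabs
variable (k : Type u) [Field k] {H : Type v} [AddCommGroup H] [Module k H]

/-- the two commuting actions of the dual on a coalgebra, abstractly -/
structure FLAG_Pair (ε : Module.Dual k H) (o : H)
    (L R : Module.Dual k H →ₗ[k] H →ₗ[k] H) : Prop where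
  LR : ∀ f g x, L f (R g x) = R g (L f x)
  LL : ∀ f g, ∃ h, ∀ x, L f (L g x) = L h x
  RR : ∀ f g, ∃ h, ∀ x, R f (R g x) = R h x
  Lε : ∀ x, L ε x = x
  Rε : ∀ x, R ε x = x
  εL : ∀ f x, ε (L f x) = f x
  εR : ∀ f x, ε (R f x) = f x
  L1 : ∀ f, L f o = f o • o
  R1 : ∀ f, R f o = f o • o
  ε1 : ε o = 1
  finL : ∀ x, ∃ W : Submodule k H, W.FG ∧ ∀ f, L f x ∈ W
  finR : ∀ x, ∃ W : Submodule k H, W.FG ∧ ∀ f, R f x ∈ W
  one_mem : ∀ D : Submodule k H, D.FG → D ≠ ⊥ → (∀ f, ∀ x ∈ D, L f x ∈ D) →
    (∀ f, ∀ x ∈ D, R f x ∈ D) → o ∈ D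

variable {k}

theorem FLAG_Pair.symm {ε : Module.Dual k H} {o : H} {L R : Module.Dual k H →ₗ[k] H →ₗ[k] H}
    (h : FLAG_Pair k ε o L R) : FLAG_Pair k ε o R L where
  LR := fun f g x => (h.LR g f x).symm
  LL := h.RR
  RR := h.LL
  Lε := h.Rε
  Rε := h.Lε
  εL := h.εR
  εR := h.εL
  L1 := h.R1
  R1 := h.L1
  ε1 := h.ε1
  finL := h.finR
  finR := h.finL
  one_mem := fun D h1 h2 h3 h4 => h.one_mem D h1 h2 h4 h3

/-- the right closure of a finite-dimensional space is finite-dimensional -/
theorem FLAG_Pair.fg_closure {ε : Module.Dual k H} {o : H}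
    {L R : Module.Dual k H →ₗ[k] H →ₗ[k] H}
    (h : FLAG_Pair k ε o L R) (U : Submodule k H) (hU : U.FG) :
    (⨆ g, U.map (R g)).FG := by
  obtain ⟨s, rfl⟩ := hU
  choose W hW1 hW2 using h.finR
  have : Module.Finite k ↥(⨆ x ∈ s, W x) := by
    rw [Module.Finite.iff_fg]
    exact Submodule.fg_biSup s W (fun x _ => hW1 x)
  have hle : (⨆ g, (Submodule.span k (s : Set H)).map (R g)) ≤ ⨆ x ∈ s, W x := by
    refine iSup_le fun g => ?_
    rw [Submodule.map_span_le]
    intro x hx
    exact Submodule.mem_iSup_of_mem x (Submodule.mem_iSup_of_mem (by simpa using hx) (hW2 x g))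
  rw [← Module.Finite.iff_fg]
  exact Submodule.finiteDimensional_of_le hle

/-- (c): a nonzero finite-dimensional left-stable subspace contains `1`. -/
theorem FLAG_Pair.one_mem_left {ε : Module.Dual k H} {o : H}
    {L R : Module.Dual k H →ₗ[k] H →ₗ[k] H}
    (h : FLAG_Pair k ε o L R) (V : Submodule k H) (hVfg : V.FG) (hV0 : V ≠ ⊥)
    (hVs : ∀ f, ∀ x ∈ V, L f x ∈ V) : o ∈ V := by
  -- choose a minimal one
  have hVfin : Module.Finite k V := Module.Finite.iff_fg.2 hVfg
  let S : Set (Submodule k H) := {U | U ≤ V ∧ U ≠ ⊥ ∧ ∀ f, ∀ x ∈ U, L f x ∈ U}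
  have hS : S.Nonempty := ⟨V, le_rfl, hV0, hVs⟩
  obtain ⟨U, ⟨hUV, hU0, hUs⟩, hmin⟩ := WellFounded.has_min
    (measure (fun U : Submodule k H => Module.finrank k U)).wf S hS
  have hUfin : Module.Finite k U := Submodule.finiteDimensional_of_le hUV
  have hUfg : U.FG := Module.Finite.iff_fg.1 hUfin
  have hmin' : ∀ X : Submodule k H, X ≤ U → X ≠ ⊥ → (∀ f, ∀ x ∈ X, L f x ∈ X) → X = U := by
    intro X hX hX0 hXs
    have h1 := hmin X ⟨hX.trans hUV, hX0, hXs⟩
    refine Submodule.eq_of_le_of_finrank_le hX ?_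
    exact Nat.not_lt.1 h1
  by_contra hoV
  have hoU : o ∉ U := fun hh => hoV (hUV hh)
  have ho : o ≠ 0 := by
    intro h0
    have := h.ε1
    rw [h0, map_zero] at this
    exact zero_ne_one this
  -- the closure
  have key : ∀ s : Finset (Module.Dual k H), o ∉ ⨆ g ∈ s, U.map (R g) := by
    intro s
    classical
    induction s using Finset.induction_on with
    | empty => simpa using ho
    | insert g s hgs ih =>
      rw [Finset.iSup_insert]
      intro hmem
      obtain ⟨y, hy, z, hz, hyz⟩ := Submodule.mem_sup.1 hmem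
      obtain ⟨u, hu, rfl⟩ := hy
      set T : Submodule k H := ⨆ g ∈ s, U.map (R g) with hT
      have hTs : ∀ f, ∀ x ∈ T, L f x ∈ T := by
        intro f x hx
        have : T ≤ T.comap (L f) := by
          rw [hT]
          refine iSup₂_le fun g' hg' => ?_
          rw [Submodule.map_le_iff_le_comap]
          intro w hw
          simp only [Submodule.mem_comap]
          rw [h.LR]
          exact Submodule.mem_iSup_of_mem g' (Submodule.mem_iSup_of_mem hg'
            (Submodule.mem_map_of_mem (hUs f w hw)))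
        exact this hx
      have hX : ∀ X : Submodule k H, X = U ⊓ T.comap (R g) → X = ⊥ ∨ X = U := by
        rintro X rfl
        by_cases hb : U ⊓ T.comap (R g) = ⊥
        · exact Or.inl hb
        · right
          apply hmin' _ inf_le_left hb
          rintro f x ⟨hx1, hx2⟩
          refine ⟨hUs f x hx1, ?_⟩
          simp only [Submodule.mem_comap, SetLike.mem_coe] at hx2 ⊢
          rw [← h.LR]
          exact hTs f _ hx2
      rcases hX _ rfl with hbot | htop
      · -- `L f u = 0` for all `f` with `f 1 = 0`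
        have h1 : ∀ f : Module.Dual k H, f o = 0 → L f u = 0 := by
          intro f hf
          have h2 : L f u ∈ U ⊓ T.comap (R g) := by
            refine ⟨hUs f u hu, ?_⟩
            simp only [Submodule.mem_comap, SetLike.mem_coe]
            rw [← h.LR]
            have h3 : L f (R g u) = - L f z := by
              have : R g u = o - z := by rw [← hyz]; abel
              rw [this, map_sub, h.L1, hf, zero_smul, zero_sub]
            rw [h3]
            exact T.neg_mem (hTs f z hz)
          rw [hbot] at h2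
          simpa using h2
        have h4 : u = ε u • o := by
          have h5 : ∀ f : Module.Dual k H, f u = f o * ε u := by
            intro f
            have h6 := h1 (f - f o • ε) (by simp [h.ε1])
            have h7 : L f u = f o • u := by
              rw [map_sub, map_smul, LinearMap.sub_apply, LinearMap.smul_apply, h.Lε,
                sub_eq_zero] at h6
              exact h6
            rw [← h.εL f u, h7, map_smul, smul_eq_mul]
          rw [← sub_eq_zero, ← Module.forall_dual_apply_eq_zero_iff k]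
          intro f
          rw [map_sub, map_smul, h5 f, smul_eq_mul]; ring
        by_cases h8 : ε u = 0
        · rw [h8, zero_smul] at h4
          rw [h4, map_zero, zero_add] at hyz
          exact ih (hyz ▸ hz)
        · apply hoU
          have : o = (ε u)⁻¹ • u := by
            rw [h4, smul_smul]
            simp [h.ε1, inv_mul_cancel₀ h8]
          rw [this]
          exact U.smul_mem _ hu
      · have : u ∈ U ⊓ T.comap (R g) := by rw [htop]; exact hu
        have h2 : R g u ∈ T := this.2
        apply ih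
        rw [← hyz]
        exact T.add_mem h2 hz
  have hD : o ∈ ⨆ g, U.map (R g) := by
    apply h.one_mem _ (h.fg_closure U hUfg)
    · intro hbot
      apply hU0
      rw [eq_bot_iff] at hbot ⊢
      intro x hx
      apply hbot
      refine Submodule.mem_iSup_of_mem ε ?_
      exact ⟨x, hx, h.Rε x⟩
    · intro f x hx
      have : (⨆ g, U.map (R g)) ≤ (⨆ g, U.map (R g)).comap (L f) := by
        refine iSup_le fun g' => ?_
        rw [Submodule.map_le_iff_le_comap]
        intro w hw
        simp only [Submodule.mem_comap]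
        rw [h.LR]
        exact Submodule.mem_iSup_of_mem g' (Submodule.mem_map_of_mem (hUs f w hw))
      exact this hx
    · intro f x hx
      have : (⨆ g, U.map (R g)) ≤ (⨆ g, U.map (R g)).comap (R f) := by
        refine iSup_le fun g' => ?_
        rw [Submodule.map_le_iff_le_comap]
        intro w hw
        simp only [Submodule.mem_comap]
        obtain ⟨e, he⟩ := h.RR f g'
        rw [he]
        exact Submodule.mem_iSup_of_mem e (Submodule.mem_map_of_mem hw)
      exact this hx
  rw [Submodule.mem_iSup_iff_exists_finset] at hD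
  obtain ⟨s, hs⟩ := hD
  exact key s hs

/-- (d), one side: -/
theorem FLAG_Pair.step {ε : Module.Dual k H} {o : H}
    {L R : Module.Dual k H →ₗ[k] H →ₗ[k] H}
    (h : FLAG_Pair k ε o L R) (D Q : Submodule k H) (hDQ : D ≤ Q) (hne : D ≠ Q) (hQ : Q.FG)
    (hQL : ∀ f, ∀ x ∈ Q, L f x ∈ Q) (hDL : ∀ f, ∀ x ∈ D, L f x ∈ D)
    (hD : ∀ ξ : Module.Dual k H, (∀ x ∈ D, ξ x = 0) → ∀ x ∈ D, R ξ x = 0) :
    ∃ x ∈ Q, x ∉ D ∧ ∀ f : Module.Dual k H, f o = 0 → L f x ∈ D := by
  have hQfin : Module.Finite k Q := Module.Finite.iff_fg.2 hQ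
  let S : Set (Submodule k H) := {X | D ≤ X ∧ X ≤ Q ∧ X ≠ D ∧ ∀ f, ∀ x ∈ X, L f x ∈ X}
  have hS : S.Nonempty := ⟨Q, hDQ, le_rfl, hne.symm, hQL⟩
  obtain ⟨X, ⟨hDX, hXQ, hXD, hXs⟩, hmin⟩ := WellFounded.has_min
    (measure (fun U : Submodule k H => Module.finrank k U)).wf S hS
  have hXfin : Module.Finite k X := Submodule.finiteDimensional_of_le hXQ
  have hmin' : ∀ Y : Submodule k H, D ≤ Y → Y ≤ X → (∀ f, ∀ x ∈ Y, L f x ∈ Y) →
      Y = D ∨ Y = X := by
    intro Y h1 h2 h3
    by_cases hY : Y = D
    · exact Or.inl hY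
    · right
      have h4 := hmin Y ⟨h1, h2.trans hXQ, hY, h3⟩
      refine Submodule.eq_of_le_of_finrank_le h2 ?_
      exact Nat.not_lt.1 h4
  obtain ⟨x₀, hx₀X, hx₀D⟩ : ∃ x ∈ X, x ∉ D := by
    by_contra hcon
    push Not at hcon
    exact hXD (le_antisymm hcon hDX)
  obtain ⟨ξ, hξ1, hξ2⟩ := Submodule.exists_dual_map_eq_bot_of_notMem hx₀D inferInstance
  have hξD : ∀ x ∈ D, ξ x = 0 := by
    intro x hx
    have : ξ x ∈ D.map ξ := Submodule.mem_map_of_mem hx
    rw [hξ2] at this
    simpa using this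
  have hker : X ⊓ LinearMap.ker (R ξ) = D := by
    rcases hmin' (X ⊓ LinearMap.ker (R ξ)) (le_inf hDX (fun x hx => by
      simpa using hD ξ hξD x hx)) inf_le_left (by
        rintro f x ⟨hx1, hx2⟩
        refine ⟨hXs f x hx1, ?_⟩
        simp only [SetLike.mem_coe, LinearMap.mem_ker] at hx2 ⊢
        rw [← h.LR, hx2, map_zero]) with h1 | h1
    · exact h1
    · exfalso
      apply hξ1
      have : x₀ ∈ X ⊓ LinearMap.ker (R ξ) := by rw [h1]; exact hx₀X
      have h2 : R ξ x₀ = 0 := this.2
      rw [← h.εR ξ x₀, h2, map_zero]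
  have hone : o ∈ X.map (R ξ) := by
    apply h.one_mem_left
    · exact (Module.Finite.iff_fg.1 hXfin).map _
    · intro hbot
      apply hξ1
      have h2 : R ξ x₀ ∈ X.map (R ξ) := Submodule.mem_map_of_mem hx₀X
      rw [hbot] at h2
      have h3 : R ξ x₀ = 0 := by simpa using h2
      rw [← h.εR ξ x₀, h3, map_zero]
    · rintro f _ ⟨y, hy, rfl⟩
      exact ⟨L f y, hXs f y hy, (h.LR f ξ y).symm⟩
  obtain ⟨x, hxX, hx⟩ := hone
  have ho : o ≠ 0 := by
    intro h0
    have := h.ε1
    rw [h0, map_zero] at this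
    exact zero_ne_one this
  refine ⟨x, hXQ hxX, ?_, ?_⟩
  · intro hxD
    exact ho (by rw [← hx]; exact hD ξ hξD x hxD)
  · intro f hf
    rw [← hker]
    refine ⟨hXs f x hxX, ?_⟩
    simp only [SetLike.mem_coe, LinearMap.mem_ker]
    rw [← h.LR, hx, h.L1, hf, zero_smul]

end FLAGabs

section FLAGmain
variable (k : Type u) [Field k] {H : Type v} [Ring H] [Bialgebra k H]

/-- (b): a nonzero finite-dimensional subcoalgebra contains `1`. -/
theorem FLAG_one_mem (hc : IsConnectedBialgebra k H) (D : Submodule k H) (hD : D.FG)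
    (hD0 : D ≠ ⊥) (hDs : IsSubcoalgebra k D) : (1 : H) ∈ D := by
  have hfin : Module.Finite k D := Module.Finite.iff_fg.2 hD
  let S : Set (Submodule k H) := {U | U ≤ D ∧ U ≠ ⊥ ∧ IsSubcoalgebra k U}
  have hS : S.Nonempty := ⟨D, le_rfl, hD0, hDs⟩
  obtain ⟨U, ⟨hUD, hU0, hUs⟩, hmin⟩ := WellFounded.has_min
    (measure (fun U : Submodule k H => Module.finrank k U)).wf S hS
  have hUfin : Module.Finite k U := Submodule.finiteDimensional_of_le hUD
  have hsimple : IsSimpleSubcoalgebra k U := by
    refine ⟨hUs, hU0, fun E hE hEU => ?_⟩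
    by_cases hE0 : E = ⊥
    · exact Or.inl hE0
    · right
      have h1 := hmin E ⟨hEU.trans hUD, hE0, hE⟩
      exact Submodule.eq_of_le_of_finrank_le hEU (Nat.not_lt.1 h1)
  have hle : U ≤ Submodule.span k {1} := by
    rw [← hc]
    exact le_sSup hsimple
  obtain ⟨x, hx, hx0⟩ := Submodule.exists_mem_ne_zero_of_ne_bot hU0
  obtain ⟨c, rfl⟩ := Submodule.mem_span_singleton.1 (hle hx)
  have hc0 : c ≠ 0 := by
    rintro rfl
    simp at hx0
  apply hUD
  have : (1 : H) = c⁻¹ • (c • (1 : H)) := by rw [smul_smul, inv_mul_cancel₀ hc0, one_smul]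
  rw [this]
  exact U.smul_mem _ hx

theorem FLAG_pair (hc : IsConnectedBialgebra k H) :
    FLAG_Pair k (Coalgebra.counit (R := k) (A := H)) 1 (FLAG_L k) (FLAG_R k) where
  LR := FLAG_LR k
  LL := fun f g => ⟨_, FLAG_LL k f g⟩
  RR := fun f g => ⟨_, FLAG_RR k f g⟩
  Lε := FLAG_Lcounit k
  Rε := FLAG_Rcounit k
  εL := FLAG_counitL k
  εR := FLAG_counitR k
  L1 := FLAG_L_one k
  R1 := FLAG_R_one k
  ε1 := Bialgebra.counit_one
  finL := fun x => FLAG_finL k _
  finR := fun x => FLAG_finR k _
  one_mem := fun D h1 h2 h3 h4 => FLAG_one_mem k hc D h1 h2 ((FLAG_sub_iff k D).2 ⟨h3, h4⟩)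

/-- (a): the fundamental theorem of coalgebras. -/
theorem FLAG_fund (hc : IsConnectedBialgebra k H) (V : Submodule k H) (hV : V.FG) :
    ∃ C : Submodule k H, V ≤ C ∧ (1 : H) ∈ C ∧ C.FG ∧ IsSubcoalgebra k C := by
  have P := FLAG_pair k hc
  set U := V ⊔ Submodule.span k {(1 : H)} with hU
  have hUfg : U.FG := hV.sup (Submodule.fg_span_singleton _)
  set U₁ := ⨆ g, U.map (FLAG_R k g) with hU₁
  have hU₁fg : U₁.FG := P.fg_closure U hUfg
  set U₂ := ⨆ g, U₁.map (FLAG_L k g) with hU₂
  have hU₂fg : U₂.FG := P.symm.fg_closure U₁ hU₁fg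
  have h01 : U ≤ U₁ := fun x hx => Submodule.mem_iSup_of_mem (Coalgebra.counit (R := k))
    ⟨x, hx, FLAG_Rcounit k x⟩
  have h12 : U₁ ≤ U₂ := fun x hx => Submodule.mem_iSup_of_mem (Coalgebra.counit (R := k))
    ⟨x, hx, FLAG_Lcounit k x⟩
  refine ⟨U₂, (le_sup_left.trans h01).trans h12, h12 (h01 (Submodule.mem_sup_right
    (Submodule.mem_span_singleton_self _))), hU₂fg, ?_⟩
  have h1R : ∀ f, ∀ x ∈ U₁, FLAG_R k f x ∈ U₁ := by
    intro f x hx
    have : U₁ ≤ U₁.comap (FLAG_R k f) := by
      rw [hU₁]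
      refine iSup_le fun g' => ?_
      rw [Submodule.map_le_iff_le_comap]
      intro w hw
      simp only [Submodule.mem_comap]
      rw [FLAG_RR]
      exact Submodule.mem_iSup_of_mem _ (Submodule.mem_map_of_mem hw)
    exact this hx
  rw [FLAG_sub_iff]
  constructor
  · intro f x hx
    have : U₂ ≤ U₂.comap (FLAG_L k f) := by
      rw [hU₂]
      refine iSup_le fun g' => ?_
      rw [Submodule.map_le_iff_le_comap]
      intro w hw
      simp only [Submodule.mem_comap]
      rw [FLAG_LL]
      exact Submodule.mem_iSup_of_mem _ (Submodule.mem_map_of_mem hw)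
    exact this hx
  · intro f x hx
    have : U₂ ≤ U₂.comap (FLAG_R k f) := by
      rw [hU₂]
      refine iSup_le fun g' => ?_
      rw [Submodule.map_le_iff_le_comap]
      intro w hw
      simp only [Submodule.mem_comap]
      rw [← FLAG_LR]
      exact Submodule.mem_iSup_of_mem _ (Submodule.mem_map_of_mem (h1R f w hw))
    exact this hx

/-- (d): one more element. -/
theorem FLAG_next (hc : IsConnectedBialgebra k H) (D C : Submodule k H) (hDC : D ≤ C)
    (hne : D ≠ C) (hC : C.FG) (hDs : IsSubcoalgebra k D) (hCs : IsSubcoalgebra k C)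
    (h1 : (1 : H) ∈ D) :
    ∃ x ∈ C, x ∉ D ∧
      Coalgebra.comul (R := k) x - x ⊗ₜ[k] (1 : H) - (1 : H) ⊗ₜ[k] x ∈ tsp k D D := by
  have P := FLAG_pair k hc
  have hDs' := (FLAG_sub_iff k D).1 hDs
  have hCs' := (FLAG_sub_iff k C).1 hCs
  have kill : ∀ t ∈ tsp k D D, ∀ ξ : Module.Dual k H, (∀ x ∈ D, ξ x = 0) →
      TensorProduct.lid k H (LinearMap.rTensor H ξ t) = 0 ∧
      TensorProduct.rid k H (LinearMap.lTensor H ξ t) = 0 := by
    intro t ht ξ hξ
    have hA : tsp k D D ≤ LinearMap.ker ((TensorProduct.lid k H).toLinearMap ∘ₗ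
        LinearMap.rTensor H ξ) := by
      rw [tsp, Submodule.map₂_le]
      intro a ha b hb
      simp [hξ a ha]
    have hB : tsp k D D ≤ LinearMap.ker ((TensorProduct.rid k H).toLinearMap ∘ₗ
        LinearMap.lTensor H ξ) := by
      rw [tsp, Submodule.map₂_le]
      intro a ha b hb
      simp [hξ b hb]
    exact ⟨by simpa using hA ht, by simpa using hB ht⟩
  have hDR : ∀ ξ : Module.Dual k H, (∀ x ∈ D, ξ x = 0) → ∀ x ∈ D, FLAG_R k ξ x = 0 :=
    fun ξ hξ x hx => (kill _ (hDs x hx) ξ hξ).1
  have hDL : ∀ ξ : Module.Dual k H, (∀ x ∈ D, ξ x = 0) → ∀ x ∈ D, FLAG_L k ξ x = 0 :=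
    fun ξ hξ x hx => (kill _ (hDs x hx) ξ hξ).2
  -- first side
  obtain ⟨y, hyC, hyD, hy⟩ := P.step D C hDC hne hC hCs'.1 hDs'.1 hDR
  set Q : Submodule k H := C ⊓ ⨅ f : {f : Module.Dual k H // f 1 = 0}, D.comap (FLAG_L k f.1)
    with hQ
  have hQmem : ∀ x, x ∈ Q ↔ x ∈ C ∧ ∀ f : Module.Dual k H, f 1 = 0 → FLAG_L k f x ∈ D := by
    intro x
    rw [hQ, Submodule.mem_inf, Submodule.mem_iInf]
    constructor
    · rintro ⟨a, b⟩
      exact ⟨a, fun f hf => b ⟨f, hf⟩⟩
    · rintro ⟨a, b⟩
      exact ⟨a, fun f => b f.1 f.2⟩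
  have hDQ : D ≤ Q := fun x hx => (hQmem x).2 ⟨hDC hx, fun f _ => hDs'.1 f x hx⟩
  have hQC : Q ≤ C := fun x hx => ((hQmem x).1 hx).1
  have hneQ : D ≠ Q := by
    intro h
    apply hyD
    rw [h]
    exact (hQmem y).2 ⟨hyC, hy⟩
  have hCfin : Module.Finite k C := Module.Finite.iff_fg.2 hC
  have hQfg : Q.FG := Module.Finite.iff_fg.1 (Submodule.finiteDimensional_of_le hQC)
  have hQR : ∀ f, ∀ x ∈ Q, FLAG_R k f x ∈ Q := by
    intro f x hx
    rw [hQmem] at hx ⊢
    refine ⟨hCs'.2 f x hx.1, fun g hg => ?_⟩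
    rw [FLAG_LR]
    exact hDs'.2 f _ (hx.2 g hg)
  obtain ⟨x, hxQ, hxD, hx⟩ := P.symm.step D Q hDQ hneQ hQfg hQR hDs'.2 hDL
  refine ⟨x, hQC hxQ, hxD, ?_⟩
  have hL := ((hQmem x).1 hxQ).2
  have hε1 : Coalgebra.counit (R := k) (1 : H) = 1 := Bialgebra.counit_one
  apply FLAG_TD
  · intro f
    have e : TensorProduct.rid k H (LinearMap.lTensor H f
        (Coalgebra.comul (R := k) x - x ⊗ₜ[k] (1 : H) - (1 : H) ⊗ₜ[k] x)) =
        FLAG_L k (f - f 1 • Coalgebra.counit (R := k)) x - f x • (1 : H) := by
      rw [map_sub, map_sub, map_sub, map_sub, ← FLAG_L_apply, map_sub (FLAG_L k),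
        map_smul (FLAG_L k), LinearMap.sub_apply, LinearMap.smul_apply, FLAG_Lcounit]
      simp
    rw [e]
    exact D.sub_mem (hL _ (by simp [hε1])) (D.smul_mem _ h1)
  · intro f
    have e : TensorProduct.lid k H (LinearMap.rTensor H f
        (Coalgebra.comul (R := k) x - x ⊗ₜ[k] (1 : H) - (1 : H) ⊗ₜ[k] x)) =
        FLAG_R k (f - f 1 • Coalgebra.counit (R := k)) x - f x • (1 : H) := by
      rw [map_sub, map_sub, map_sub, map_sub, ← FLAG_R_apply, map_sub (FLAG_R k),
        map_smul (FLAG_R k), LinearMap.sub_apply, LinearMap.smul_apply, FLAG_Rcounit]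
      simp only [LinearMap.rTensor_tmul, TensorProduct.lid_tmul]
      abel
    rw [e]
    exact D.sub_mem (hx _ (by simp [hε1])) (D.smul_mem _ h1)

/-- the flag condition -/
def FLAG_cond {m : ℕ} (c : Fin m → H) : Prop :=
  ∀ j : Fin m, Coalgebra.comul (R := k) (c j) - c j ⊗ₜ[k] (1 : H) - (1 : H) ⊗ₜ[k] c j ∈
        tsp k (Submodule.span k (insert (1 : H) (c '' {i | i < j})))
          (Submodule.span k (insert (1 : H) (c '' {i | i < j})))

theorem FLAG_tsp_mono {A B : Submodule k H} (h : A ≤ B) : tsp k A A ≤ tsp k B B :=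
  Submodule.map₂_le_map₂ h h

theorem FLAG_sub_of_cond {m : ℕ} (c : Fin m → H) (hc : FLAG_cond k c) :
    IsSubcoalgebra k (Submodule.span k (insert (1 : H) (Set.range c))) := by
  set D := Submodule.span k (insert (1 : H) (Set.range c)) with hD
  have h1 : (1 : H) ∈ D := Submodule.subset_span (Set.mem_insert _ _)
  have hcj : ∀ j, c j ∈ D := fun j => Submodule.subset_span (Set.mem_insert_of_mem _ ⟨j, rfl⟩)
  intro x hx
  have hle : D ≤ (tsp k D D).comap (Coalgebra.comul (R := k)) := by
    conv_lhs => rw [hD]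
    rw [Submodule.span_le]
    rintro y (rfl | ⟨j, rfl⟩)
    · simp only [SetLike.mem_coe, Submodule.mem_comap, Bialgebra.comul_one,
        Algebra.TensorProduct.one_def]
      exact Submodule.apply_mem_map₂ _ h1 h1
    · simp only [SetLike.mem_coe, Submodule.mem_comap]
      have h2 : Coalgebra.comul (R := k) (c j) - c j ⊗ₜ[k] (1 : H) - (1 : H) ⊗ₜ[k] c j ∈
          tsp k D D := by
        refine FLAG_tsp_mono k (Submodule.span_mono ?_) (hc j)
        exact Set.insert_subset_insert (Set.image_subset_range _ _)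
      have h3 : c j ⊗ₜ[k] (1 : H) ∈ tsp k D D := Submodule.apply_mem_map₂ _ (hcj j) h1
      have h4 : (1 : H) ⊗ₜ[k] c j ∈ tsp k D D := Submodule.apply_mem_map₂ _ h1 (hcj j)
      have h5 := Submodule.add_mem _ (Submodule.add_mem _ h2 h4) h3
      convert h5 using 1
      abel
  exact hle hx

theorem FLAG_iter (hc : IsConnectedBialgebra k H) (C : Submodule k H) (hC : C.FG)
    (hCs : IsSubcoalgebra k C) : ∀ (n m : ℕ) (c : Fin m → H), FLAG_cond k c →
    Submodule.span k (insert (1 : H) (Set.range c)) ≤ C →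
    Module.finrank k C ≤ Module.finrank k
      ↥(Submodule.span k (insert (1 : H) (Set.range c))) + n →
    ∃ (m' : ℕ) (c' : Fin m' → H), C ≤ Submodule.span k (insert (1 : H) (Set.range c')) ∧
      FLAG_cond k c' := by
  have hCfin : Module.Finite k C := Module.Finite.iff_fg.2 hC
  intro n
  induction n with
  | zero =>
    intro m c h1 h2 h3
    exact ⟨m, c, (Submodule.eq_of_le_of_finrank_le h2 h3).ge, h1⟩
  | succ n ih =>
    intro m c h1 h2 h3
    by_cases hne : Submodule.span k (insert (1 : H) (Set.range c)) = C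
    · exact ⟨m, c, hne.ge, h1⟩
    obtain ⟨x, hxC, hxD, hx⟩ := FLAG_next k hc _ C h2 hne hC (FLAG_sub_of_cond k c h1) hCs
      (Submodule.subset_span (Set.mem_insert _ _))
    have hrange : Set.range (Fin.snoc c x : Fin (m + 1) → H) = insert x (Set.range c) := by
      ext y
      constructor
      · rintro ⟨i, rfl⟩
        refine Fin.lastCases ?_ (fun i => ?_) i
        · simp
        · simp
      · rintro (rfl | ⟨i, rfl⟩)
        · exact ⟨Fin.last m, by simp⟩
        · exact ⟨i.castSucc, by simp⟩
    have hle : Submodule.span k (insert (1 : H) (Set.range c)) ≤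
        Submodule.span k (insert (1 : H) (Set.range (Fin.snoc c x : Fin (m + 1) → H))) := by
      apply Submodule.span_mono
      rw [hrange]
      exact Set.insert_subset_insert (Set.subset_insert _ _)
    have hleC : Submodule.span k (insert (1 : H) (Set.range (Fin.snoc c x : Fin (m + 1) → H)))
        ≤ C := by
      rw [Submodule.span_le, hrange]
      rintro y (rfl | rfl | hy)
      · exact h2 (Submodule.subset_span (Set.mem_insert _ _))
      · exact hxC
      · exact h2 (Submodule.subset_span (Set.mem_insert_of_mem _ hy))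
    apply ih (m + 1) (Fin.snoc c x) _ hleC
    · have hlt : Submodule.span k (insert (1 : H) (Set.range c)) <
          Submodule.span k (insert (1 : H) (Set.range (Fin.snoc c x : Fin (m + 1) → H))) := by
        refine lt_of_le_of_ne hle fun h => hxD ?_
        rw [h]
        exact Submodule.subset_span (Set.mem_insert_of_mem _ (by rw [hrange]; exact Or.inl rfl))
      have hfin : Module.Finite k ↥(Submodule.span k (insert (1 : H)
          (Set.range (Fin.snoc c x : Fin (m + 1) → H)))) := Submodule.finiteDimensional_of_le hleC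
      have := Submodule.finrank_lt_finrank_of_lt hlt
      omega
    · intro j
      refine Fin.lastCases ?_ (fun i => ?_) j
      · have e : (Fin.snoc c x : Fin (m + 1) → H) '' {i | i < Fin.last m} = Set.range c := by
          ext y
          constructor
          · rintro ⟨i, hi, rfl⟩
            obtain ⟨i', rfl⟩ := Fin.exists_castSucc_eq.2 (ne_of_lt hi)
            exact ⟨i', by simp⟩
          · rintro ⟨i, rfl⟩
            exact ⟨i.castSucc, Fin.castSucc_lt_last i, by simp⟩
        rw [e, Fin.snoc_last]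
        exact hx
      · have e : (Fin.snoc c x : Fin (m + 1) → H) '' {i' | i' < i.castSucc} =
            c '' {i' | i' < i} := by
          ext y
          constructor
          · rintro ⟨i', hi', rfl⟩
            obtain ⟨i'', rfl⟩ := Fin.exists_castSucc_eq.2
              (ne_of_lt (lt_of_lt_of_le hi' (Fin.le_last _)))
            exact ⟨i'', by simpa using hi', by simp⟩
          · rintro ⟨i', hi', rfl⟩
            exact ⟨i'.castSucc, by simpa using hi', by simp⟩
        rw [e, Fin.snoc_castSucc]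
        exact h1 i

/-- FLAG -/
theorem flag_pr (hc : IsConnectedBialgebra k H) (V : Submodule k H) (hV : V.FG) :
    ∃ (m : ℕ) (c : Fin m → H),
      V ≤ Submodule.span k (insert (1 : H) (Set.range c)) ∧
      ∀ j : Fin m, Coalgebra.comul (R := k) (c j) - c j ⊗ₜ[k] (1 : H) - (1 : H) ⊗ₜ[k] c j ∈
        tsp k (Submodule.span k (insert (1 : H) (c '' {i | i < j})))
          (Submodule.span k (insert (1 : H) (c '' {i | i < j}))) := by
  obtain ⟨C, hVC, h1C, hC, hCs⟩ := FLAG_fund k hc V hV
  obtain ⟨m, c, h1, h2⟩ := FLAG_iter k hc C hC hCs (Module.finrank k C) 0 (fun i => i.elim0)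
    (fun j => j.elim0) (by
      rw [Submodule.span_le]
      rintro y (rfl | ⟨j, rfl⟩)
      · exact h1C
      · exact j.elim0) (by omega)
  exact ⟨m, c, hVC.trans h1, h2⟩

end FLAGmain

end Pool.Agent.GK
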